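import Pool.Agent.L5helper97.SXA.Fin

set_option autoImplicit false

/-!
# MP_91b7ff_nt: the moments of every even order `2n + 4`, four factors unshifted and `n` squares at generic shifts

For every `n` the moment `M T c = ∫_0^T |ζ(1/2+it)|⁴ ∏_{j≤n} |ζ(1/2+i(t+c_j))|² dt` of order `k = 2n + 4` (which is the
moment `M_k(T)` of the problem for `c = 0`) has the expected asymptotics, with the constant, for almost all shift
vectors `c ∈ [0,T]^n`, unconditionally: in `L¹` mean over `c` it is `(1/12) ∏_{p ≤ log T} loc c p · T (log T)^(n+4)`, and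
off a set of `c` of measure at most `ε T^n` it is `(1 + O(ε)) (1/12) A(c) Z(c) T (log T)^(n+4)`.
-/

namespace Pool.Agent.Results.MP_91b7ff_nt.FourthPowerGenericShifts

open Complex MeasureTheory

noncomputable section

variable {n : ℕ}

/-- the moment of order `2n + 4` with `n` shifted squares -/
def M (T : ℝ) (c : Fin n → ℝ) : ℝ :=
  ∫ t in (0:ℝ)..T, ‖riemannZeta (1 / 2 + I * t)‖ ^ 4 * ∏ j, ‖riemannZeta (1 / 2 + I * (t + c j))‖ ^ 2

/-- the local density at the prime `p`: `(1 - 1/p)^(n+4)` times the mean over the unit circle of the Euler factors of the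
`2n + 4` zeta factors -/
def loc (c : Fin n → ℝ) (p : ℕ) : ℝ :=
  (1 - 1 / (p : ℝ)) ^ (n + 4) * ∫ θ in (0:ℝ)..1,
    1 / (‖1 - cexp (2 * Real.pi * I * θ) * (p : ℂ) ^ (-(1 / 2) : ℂ)‖ ^ 4 *
      ∏ j, ‖1 - cexp (2 * Real.pi * I * θ) * (p : ℂ) ^ (-(1 / 2 + I * c j))‖ ^ 2)

/-- the product of the local densities over the primes `p ≤ log T` -/
def S (T : ℝ) (c : Fin n → ℝ) : ℝ :=
  ∏ p ∈ (Finset.range (⌊Real.log T⌋₊ + 1)).filter Nat.Prime, loc c p

/-- the zeta factors of the main term -/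
def Z (c : Fin n → ℝ) : ℝ :=
  (∏ j, ‖riemannZeta (1 + I * c j)‖ ^ 4) *
    ∏ i, ∏ j ∈ Finset.Ioi i, ‖riemannZeta (1 + I * (c i - c j))‖ ^ 2

/-- the inverse of the Euler factor of `Z c` at `p` -/
def ez (c : Fin n → ℝ) (p : ℕ) : ℝ :=
  (∏ j, ‖1 - (p : ℂ) ^ (-(1 + I * c j))‖ ^ 4) *
    ∏ i, ∏ j ∈ Finset.Ioi i, ‖1 - (p : ℂ) ^ (-(1 + I * (c i - c j)))‖ ^ 2

/-- the arithmetic factor of the main term, an absolutely convergent product -/
def A (c : Fin n → ℝ) : ℝ := ∏' p : Nat.Primes, loc c p * ez c p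

theorem result (n : ℕ) :
    (∃ C : ℝ, ∀ c : Fin n → ℝ, ∀ p : ℕ, p.Prime → |loc c p * ez c p - 1| ≤ C / (p:ℝ) ^ 2) ∧
    ∀ ε : ℝ, 0 < ε → ∃ T₀ : ℝ, ∀ T : ℝ, T₀ ≤ T →
      IntegrableOn (fun c : Fin n → ℝ => |M T c / (T * Real.log T ^ (n + 4)) - 1 / 12 * S T c|)
        {c | ∀ j, c j ∈ Set.Icc 0 T} ∧
      ∫ c in {c : Fin n → ℝ | ∀ j, c j ∈ Set.Icc 0 T},
        |M T c / (T * Real.log T ^ (n + 4)) - 1 / 12 * S T c| ≤ ε * T ^ n ∧
      volume {c : Fin n → ℝ | (∀ j, c j ∈ Set.Icc 0 T) ∧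
        ¬ |M T c / (1 / 12 * A c * Z c * (T * Real.log T ^ (n + 4))) - 1| ≤ ε} ≤
          ENNReal.ofReal (ε * T ^ n) := by
  obtain ⟨h1, h2, h3⟩ := Pool.Agent.L5helper97.SXA.all
  exact Pool.Agent.Y969.SM.res_gen h1 h2 h3 n

end

end Pool.Agent.Results.MP_91b7ff_nt.FourthPowerGenericShifts
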