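import Pool.Agent.L5helper97.GPA.Fin

set_option autoImplicit false

/-!
# MP_91b7ff_nt: the moments of every even order at generic shifts, full main term, remainder `T^(1/2+ε)`

For every `n`, every `ε > 0` and all but `T^(n-δ)` (Lebesgue measure) of the shift vectors `c ∈ [0,T]^n`, the moment
`∫_0^S |ζ(1/2+it)|² ∏_{j≤n} |ζ(1/2+i(t+c_j))|² dt` of order `k = 2n + 2`, `S ≤ T`, is equal to `∫_0^S R c t dt` up to
`T^(1/2+ε)`, where `R c t` is the main term of the recipe (an iterated residue, with all lower order terms).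
-/

namespace Pool.Agent.Results.MP_91b7ff_nt.GenericShiftsRecipe

open Complex MeasureTheory

noncomputable section

variable {n k : ℕ}

/-- all the shifts: `0, c_1, ..., c_n` -/
def sh (c : Fin n → ℝ) : Fin (n + 1) → ℝ := Fin.cons 0 c

/-- the divisor function `Σ f_1^(l_1) ⋯ f_k^(l_k)` over the factorisations `m = f_1 ⋯ f_k` -/
def tau (l : Fin k → ℂ) (m : ℕ) : ℂ := ∑ f ∈ Nat.finMulAntidiag k m, ∏ j, (f j : ℂ) ^ (l j)

/-- the Euler factor at `p` of `∑_m tau(-x)(m) tau(-y)(m) / m`, divided by that of `∏_{j,l} ζ(1 + x_j + y_l)` -/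
def fac (x y : Fin k → ℂ) (p : ℕ) : ℂ :=
  (∏ j, ∏ l, (1 - (p : ℂ) ^ (-(1 + x j + y l)))) *
    ∑' m : ℕ, tau (fun j => -y j) (p ^ m) * tau (fun j => -x j) (p ^ m) * ((p : ℂ) ^ m)⁻¹

/-- the arithmetic factor -/
def A (x y : Fin k → ℂ) : ℂ := ∏' p : Nat.Primes, fac x y p

/-- the main term: `(2πi)^(-n-1)` times the integral over the torus `|w_j| = 1/8` of
`A(x,y) ∏_{i,l} ζ(1 + w_i + w_l + i(c_i - c_l)) ∏_j (2 / w_j) ((t + c_j) / 2π)^(w_j)`, `x_j = w_j + i c_j`,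
`y_j = w_j - i c_j`, `c_0 = 0` -/
def R (c : Fin n → ℝ) (t : ℝ) : ℂ :=
  ((2 * Real.pi * I) ^ (n + 1))⁻¹ * torusIntegral (fun w : Fin (n + 1) → ℂ =>
    A (fun j => w j + I * sh c j) (fun j => w j - I * sh c j) *
      (∏ i, ∏ l, riemannZeta (1 + w i + w l + I * (sh c i - sh c l))) *
      ∏ j, (2 / w j * cexp (w j * (Real.log ((t + sh c j) / (2 * Real.pi)) : ℝ))))
    (fun _ => 0) (fun _ => 1 / 8)

lemma fac_eq (x y : Fin k → ℂ) (p : ℕ) : fac x y p =
    Pool.Agent.TH612.CF.lh (fun j => -(I * x j)) (fun j => I * y j) p := by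
  unfold fac Pool.Agent.TH612.CF.lh Pool.Agent.TH612.CF.lt
  have hI : I * I = -1 := Complex.I_mul_I
  have ea : ∀ j, I * (-(I * x j)) = x j := by
    intro j
    linear_combination -(x j) * hI
  have eb : ∀ j, I * (I * y j) = -y j := by
    intro j
    linear_combination (y j) * hI
  simp only [ea, eb, sub_neg_eq_add]
  rfl

lemma A_eq (x y : Fin k → ℂ) : A x y =
    Pool.Agent.TH612.CF.FH (fun j => -(I * x j)) (fun j => I * y j) := by
  unfold A Pool.Agent.TH612.CF.FH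
  exact tprod_congr fun p => fac_eq x y p

theorem result (n : ℕ) :
    (∀ x y : Fin (n + 1) → ℂ, (∀ j, |(x j).re| ≤ 1 / 8 ∧ |(y j).re| ≤ 1 / 8) →
      Multipliable fun p : Nat.Primes => fac x y p) ∧
    ∀ ε : ℝ, 0 < ε → ∃ δ T₀ : ℝ, 0 < δ ∧ ∀ T S : ℝ, T₀ ≤ T → 0 ≤ S → S ≤ T →
      volume {c : Fin n → ℝ | (∀ j, c j ∈ Set.Icc 0 T) ∧
        T ^ (1 / 2 + ε) < ‖((∫ t in (0:ℝ)..S, ∏ j, ‖riemannZeta (1 / 2 + I * (t + sh c j))‖ ^ 2 : ℝ) : ℂ) -
          ∫ t in (0:ℝ)..S, R c t‖} ≤ ENNReal.ofReal (T ^ ((n : ℝ) - δ)) := by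
  refine ⟨fun x y hxy => ?_, fun ε hε => ?_⟩
  · have hT : Pool.Agent.TH612.CF.Tb (1 / 8) (fun j => -(I * x j)) (fun j => I * y j) := by
      intro j
      have e1 : (-(I * x j)).im = -(x j).re := by simp
      have e2 : (I * y j).im = (y j).re := by simp
      rw [e1, e2, abs_neg]
      exact hxy j
    have h := Pool.Agent.TH612.CF.lh_hasProd (c := 1 / 8) (by norm_num) hT
    exact h.multipliable.congr fun p => (fac_eq x y p).symm
  have hR : ∀ (c : Fin n → ℝ) (t : ℝ), R c t = Pool.Agent.Y969.GP.RR c t := by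
    intro c t
    unfold R Pool.Agent.Y969.GP.RR
    congr 1
    congr 1
    funext w
    have e1 : A (fun j => w j + I * sh c j) (fun j => w j - I * sh c j) =
        Pool.Agent.TH612.CF.FH (Pool.Agent.Y969.GP.av c w) (Pool.Agent.Y969.GP.bv c w) := by
      rw [A_eq]
      have hI : I * I = -1 := Complex.I_mul_I
      congr 1
      · funext j
        unfold Pool.Agent.Y969.GP.av Pool.Agent.Y969.GP.cc sh
        linear_combination -((Fin.cons (0:ℝ) c : Fin (n + 1) → ℝ) j : ℂ) * hI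
      · funext j
        unfold Pool.Agent.Y969.GP.bv Pool.Agent.Y969.GP.cc sh
        linear_combination -((Fin.cons (0:ℝ) c : Fin (n + 1) → ℝ) j : ℂ) * hI
    rw [e1]
    rfl
  have hM : ∀ (c : Fin n → ℝ) (S : ℝ), ∫ t in (0:ℝ)..S, ∏ j, ‖riemannZeta (1 / 2 + I * (t + sh c j))‖ ^ 2 =
      ∫ t in (0:ℝ)..S, ∏ j, Pool.Agent.Y969.GP.ff (t + Pool.Agent.Y969.GP.cc c j) := by
    intro c S
    refine intervalIntegral.integral_congr fun t _ => ?_
    refine Finset.prod_congr rfl fun j _ => ?_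
    unfold Pool.Agent.Y969.GP.ff Pool.Agent.Y969.GP.cc sh
    push_cast
    rfl
  obtain ⟨δ, T₀, hδ, h⟩ := Pool.Agent.L5helper97.GPA.main n ε hε
  refine ⟨δ, T₀, hδ, fun T S hT hS0 hST => ?_⟩
  have := h T S hT hS0 hST
  simp only [hR, hM, Set.mem_Icc]
  exact this

end

end Pool.Agent.Results.MP_91b7ff_nt.GenericShiftsRecipe
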