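import Pool.Agent.L5helper62.PZ.All

/-!
MP_91b7ff_nt (asymptotics of the integer moments of zeta on the critical line).

The even moments of order `2n + 2` with `n` generic shifts which may be as small as a power of
`log T`: for almost all shift vectors `c` in `[0, U]^n`, `(log T)^C₀ ≤ U ≤ T^(1/4)`, the integral
of `|ζ(1/2 + it)|² ∏_j |ζ(1/2 + i(t + c_j))|²` over `[0, T]`, except for a small set of points `t`
which does not depend on the shifts, is asymptotic to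
`A(c) ∏_j |ζ(1 + i c_j)|² ∏_{i<j} |ζ(1 + i(c_i - c_j))|² T (log T)^(n+1)`.
-/

set_option autoImplicit false

namespace Pool.Agent.Results.MP_91b7ff_nt.NearbyShifts

open Complex Filter MeasureTheory

noncomputable section

/-- The local density at `p`. -/
def density {n : ℕ} (c : Fin n → ℝ) (p : ℕ) : ℝ :=
  (1 - 1 / (p : ℝ)) ^ (n + 1) * ∫ θ in (0:ℝ)..1,
    1 / (‖1 - cexp (2 * Real.pi * I * θ) * (p : ℂ) ^ (-(1 / 2) : ℂ)‖ ^ 2 *
      ∏ j, ‖1 - cexp (2 * Real.pi * I * θ) * (p : ℂ) ^ (-(1 / 2 + I * c j))‖ ^ 2)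

/-- The inverse of the Euler factor at `p` of `zetaFactor`. -/
def inverseFactor {n : ℕ} (c : Fin n → ℝ) (p : ℕ) : ℝ :=
  (∏ j, ‖1 - (p : ℂ) ^ (-(1 + I * c j))‖ ^ 2) *
    ∏ i, ∏ j ∈ Finset.Ioi i, ‖1 - (p : ℂ) ^ (-(1 + I * (c i - c j)))‖ ^ 2

/-- `∏_j |ζ(1 + i c_j)|² ∏_{i<j} |ζ(1 + i(c_i - c_j))|²`. -/
def zetaFactor {n : ℕ} (c : Fin n → ℝ) : ℝ :=
  (∏ j, ‖riemannZeta (1 + I * c j)‖ ^ 2) *
    ∏ i, ∏ j ∈ Finset.Ioi i, ‖riemannZeta (1 + I * (c i - c j))‖ ^ 2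

/-- The arithmetic factor, a product over the primes. -/
def arithmeticFactor {n : ℕ} (c : Fin n → ℝ) : ℝ :=
  ∏' p : Nat.Primes, density c p * inverseFactor c p

/-- The points `t` for which `∫_t^(t+U) |ζ(1/2 + iu)|⁴ du ≤ U V`. -/
def regular (U V : ℝ) : Set ℝ := {t | ∫ u in t..(t + U), ‖riemannZeta (1 / 2 + I * u)‖ ^ 4 ≤ U * V}

/-- `∫_S |ζ(1/2 + it)|² ∏_j |ζ(1/2 + i(t + c_j))|² dt`. -/
def moment {n : ℕ} (S : Set ℝ) (c : Fin n → ℝ) : ℝ :=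
  ∫ t in S, ‖riemannZeta (1 / 2 + I * t)‖ ^ 2 *
    ∏ j : Fin n, ‖riemannZeta (1 / 2 + I * ((t + c j : ℝ) : ℂ))‖ ^ 2

/-- For all `n` and `B` there are `C₀` and `B₀` such that for every `ε > 0`, all large `T` and all
`U` with `(log T)^C₀ ≤ U ≤ T^(1/4)`, with `R` the set of the `t` with
`∫_t^(t+U) |ζ(1/2 + iu)|⁴ du ≤ U (log T)^B₀`: all of `[0, T]` but a set of measure at most
`T / (log T)^B` is in `R`, and for all shift vectors `c` in `[0, U]^n` but a set of measure at most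
`ε U^n` the moment of order `2n + 2` with the shifts `c` over `R ∩ [0, T]` is
`zetaFactor c * arithmeticFactor c * (T * (log T) ^ (n + 1))` up to a factor in
`[1 - ε, 1 + ε]`. -/
theorem result : ∀ n B : ℕ, ∃ C₀ B₀ : ℕ, ∀ ε : ℝ, 0 < ε → ∀ᶠ T : ℝ in atTop, ∀ U : ℝ,
    Real.log T ^ C₀ ≤ U → U ≤ T ^ (1 / 4 : ℝ) →
    volume (Set.Icc 0 T \ regular U (Real.log T ^ B₀)) ≤ ENNReal.ofReal (T / Real.log T ^ B) ∧
    volume {c : Fin n → ℝ | (∀ j, 0 ≤ c j ∧ c j ≤ U) ∧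
      ¬ |moment (regular U (Real.log T ^ B₀) ∩ Set.Icc 0 T) c /
        (zetaFactor c * arithmeticFactor c * (T * Real.log T ^ (n + 1))) - 1| ≤ ε} ≤
      ENNReal.ofReal (ε * U ^ n) := by
  intro n B
  obtain ⟨C₀, B₀, h⟩ := Pool.Agent.L5helper62.PZ.main2 n B
  refine ⟨C₀, B₀, fun ε hε => ?_⟩
  filter_upwards [h ε hε] with T hT
  intro U h1 h2
  have hreg : ∀ V : ℝ, regular U V = Pool.Agent.N879.PZ.Gs U V := by
    intro V
    unfold regular Pool.Agent.N879.PZ.Gs Pool.Agent.Y969.GP.ff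
    simp only [← pow_mul, Nat.reduceMul]
  have hm : ∀ c : Fin n → ℝ, moment (regular U (Real.log T ^ B₀) ∩ Set.Icc 0 T) c =
      Pool.Agent.N879.PZ.MG T U (Real.log T ^ B₀) c := by
    intro c
    rw [hreg]
    rfl
  have hz : ∀ c : Fin n → ℝ, zetaFactor c * arithmeticFactor c =
      Pool.Agent.N879.PZ.zp1 c * Pool.Agent.N879.PZ.AA1 c := fun c => rfl
  simp only [hm, hz, hreg]
  exact hT U h1 h2

end

end Pool.Agent.Results.MP_91b7ff_nt.NearbyShifts
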