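import Pool.Agent.L5helper62.PU.All

/-!
MP_91b7ff_nt (asymptotics of the integer moments of zeta on the critical line).

The even moments of every order of the problem, with generic shifts. For every `k` the theorem gives
the conjectured asymptotic formula, with a power of `H U / T` saved, for
`∫ ∏_j ζ(1/2 + i(t + α_j)) conj (ζ(1/2 + i(t + β_j))) dt` over `[T, T + H]`, for all shift vectors
`(α, β)` in `[0, U]^(2k)` outside a set of measure `U^(2k) (H U / T)^(-δ)`, whenever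
`H U ≥ T (log T)^C`. The main term is `H A(α, β) ∏_{j,l} ζ(1 + i(α_j - β_l))`, the term without
swaps of the recipe of Conrey, Farmer, Keating, Rubinstein and Snaith. If `U ≥ √T` then the
integral is over all points of `[T, T + H]` (in particular for `H = U = T`, and for very short
intervals, `H = T^ε`, `U = T`); for smaller `U`, down to a power of `log T`, a set of points `t` of
small measure is removed, which does not depend on the shifts: those with an exceptional second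
moment of zeta over `[t, t + U]`.
-/

set_option autoImplicit false

namespace Pool.Agent.Results.MP_91b7ff_nt.SeparateShifts

open Complex MeasureTheory

noncomputable section

/-- The generalised divisor function: the sum of `∏_j n_j^(l_j)` over `n_1 ⋯ n_k = n`. -/
def tau {k : ℕ} (l : Fin k → ℂ) (n : ℕ) : ℂ :=
  ∑ f ∈ Nat.finMulAntidiag k n, ∏ j, (f j : ℂ) ^ (l j)

/-- The local factor at `p` of the arithmetic factor, for the shifts `γ = (α, β)`. -/
def localFactor {k : ℕ} (γ : Fin k ⊕ Fin k → ℝ) (p : ℕ) : ℂ :=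
  (∏ j : Fin k, ∏ l : Fin k,
    (1 - (p : ℂ) ^ (-(1 + I * (γ (Sum.inl j) : ℂ) - I * (γ (Sum.inr l) : ℂ))))) *
  ∑' m : ℕ, tau (fun l : Fin k => I * (γ (Sum.inr l) : ℂ)) (p ^ m) *
    tau (fun j : Fin k => -(I * (γ (Sum.inl j) : ℂ))) (p ^ m) * ((p : ℂ) ^ m)⁻¹

/-- The main term: `A(α, β) ∏_{j,l} ζ(1 + i α_j - i β_l)`, `A` the product of the local factors. -/
def mainTerm {k : ℕ} (γ : Fin k ⊕ Fin k → ℝ) : ℂ :=
  (∏' p : Nat.Primes, localFactor γ p) *
    ∏ j : Fin k, ∏ l : Fin k,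
      riemannZeta (1 + I * (γ (Sum.inl j) : ℂ) - I * (γ (Sum.inr l) : ℂ))

/-- The points `t` for which `∫_t^(t+U) |ζ(1/2 + iu)|² du ≤ U V`. -/
def regular (U V : ℝ) : Set ℝ := {t | ∫ u in t..(t + U), ‖riemannZeta (1 / 2 + I * u)‖ ^ 2 ≤ U * V}

/-- The shifted moment of order `2k` over the set `S`, `γ = (α, β)`:
`∫_S ∏_j ζ(1/2 + i(t + α_j)) conj (ζ(1/2 + i(t + β_j))) dt`. -/
def moment {k : ℕ} (S : Set ℝ) (γ : Fin k ⊕ Fin k → ℝ) : ℂ :=
  ∫ t in S, ∏ j : Fin k, riemannZeta (1 / 2 + I * ((t + γ (Sum.inl j) : ℝ) : ℂ)) *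
    (starRingEnd ℂ) (riemannZeta (1 / 2 + I * ((t + γ (Sum.inr j) : ℝ) : ℂ)))

open Pool.Agent.N879.PU in
/-- For every `k` there are `δ > 0`, `C` and `T₀` such that for all `T ≥ T₀`, `0 < H ≤ T`, `U ≤ T`
with `H U ≥ T (log T)^C`, with `Q = H U / T` and `G` the set of the `t` in `[T, T + H]` with
`∫_t^(t+U) |ζ(1/2 + iu)|² du ≤ U Q^(3 δ)`:
1. the rest of `[T, T + H]` has measure at most `H Q^(-δ)`;
2. if `U ≥ √T` then `G = [T, T + H]`;
3. the shift vectors in `[0, U]^(2k)` for which the shifted moment of order `2k` over `G` differs by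
more than `H Q^(-δ)` from `H A(α, β) ∏_{j,l} ζ(1 + i(α_j - β_l))` have measure at most
`U^(2k) Q^(-δ)`. -/
theorem result (k : ℕ) : ∃ δ C T₀ : ℝ, 0 < δ ∧ ∀ T H U : ℝ, T₀ ≤ T → 0 < H → H ≤ T → U ≤ T →
    T * Real.log T ^ C ≤ H * U →
    volume (Set.Icc T (T + H) \ regular U ((H * U / T) ^ (3 * δ))) ≤
      ENNReal.ofReal (H * (H * U / T) ^ (-δ)) ∧
    (T ^ (1 / 2 : ℝ) ≤ U → regular U ((H * U / T) ^ (3 * δ)) ∩ Set.Icc T (T + H) =
      Set.Icc T (T + H)) ∧
    volume {γ : Fin k ⊕ Fin k → ℝ | (∀ i, 0 ≤ γ i ∧ γ i ≤ U) ∧ H * (H * U / T) ^ (-δ) <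
      ‖moment (regular U ((H * U / T) ^ (3 * δ)) ∩ Set.Icc T (T + H)) γ - H * mainTerm γ‖} ≤
        ENNReal.ofReal (U ^ (2 * k) * (H * U / T) ^ (-δ)) := by
  obtain ⟨δ, C, T₀, hδ, h⟩ := Pool.Agent.L5helper62.PU.mainU k
  refine ⟨δ, C, T₀, hδ, fun T H U hT hH0 hH hU hHU => ?_⟩
  obtain ⟨h1, h2, h3⟩ := h T H U hT hH0 hH hU hHU
  have hreg : ∀ V : ℝ, regular U V = Gu U V := fun V => rfl
  have hmain : ∀ γ : Fin k ⊕ Fin k → ℝ, mainTerm γ = Pool.Agent.TH612.GS.zr γ := fun γ => rfl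
  have hmom : ∀ (S : Set ℝ) (γ : Fin k ⊕ Fin k → ℝ), moment S γ =
      ∫ t in S, ∏ i, fs Pool.Agent.TH612.GS.z i (t + γ i) := by
    intro S γ
    unfold moment
    refine integral_congr_ae (Filter.Eventually.of_forall fun t => ?_)
    simp only
    rw [Fintype.prod_sum_type, Finset.prod_mul_distrib]
    rfl
  refine ⟨by rw [hreg]; exact h1, fun hU2 => ?_, ?_⟩
  · rw [hreg]
    exact Set.inter_eq_right.2 (h2 hU2)
  · refine le_trans (le_of_eq ?_) h3
    have hmP : Pool.Agent.TH612.GS.mP (Fin k ⊕ Fin k) U =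
        volume.restrict (Set.univ.pi fun _ => Set.Icc 0 U) := by
      unfold Pool.Agent.TH612.GS.mP
      rw [volume_pi, Measure.restrict_pi_pi]
    rw [hmP, Measure.restrict_apply' (MeasurableSet.univ_pi fun _ => measurableSet_Icc)]
    congr 1
    ext γ
    simp only [Set.mem_setOf_eq, Set.mem_inter_iff, Set.mem_pi, Set.mem_univ, forall_const,
      Set.mem_Icc, hmom, hmain, hreg]
    exact and_comm

end

end Pool.Agent.Results.MP_91b7ff_nt.SeparateShifts
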